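import Pool.Agent.Run7.h261.PW.Lin

/-!
# mw purity of `A` from mw purity of `A ⊗ A`
-/

set_option autoImplicit false
set_option linter.unusedSectionVars false

namespace Pool.Agent.Run7.h261.PW

open Module Module.End Pool.Agent.Y143 Pool.Agent.N184.HK Pool.Agent.Run7.h261.MT
open Pool.Agent.N184.HK.P_FRM (ES WW N_eig N_pow_W N_pow_Wc ES_disjoint le_ES decomp)

section

variable {Ω A : Type} [Field Ω] [AddCommGroup A] [Module Ω A]

/-- The element `x ⊗ y` of `A ⊗ A`, as a linear map from the dual space to `A`. -/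
noncomputable def tens (x y : A) : (A →ₗ[Ω] Ω) →ₗ[Ω] A :=
  (LinearMap.applyₗ x).smulRight y

lemma tens_apply (x y : A) (f : A →ₗ[Ω] Ω) : tens x y f = f x • y := rfl

lemma exists_dual {x : A} (hx : x ≠ 0) : ∃ f : A →ₗ[Ω] Ω, f x = 1 := by
  by_contra hcon
  push Not at hcon
  refine hx ((Module.forall_dual_apply_eq_zero_iff Ω x).1 fun f => ?_)
  by_contra hf
  refine hcon ((f x)⁻¹ • f) ?_
  rw [LinearMap.smul_apply, smul_eq_mul, inv_mul_cancel₀ hf]

lemma tens_ne {x y : A} (hx : x ≠ 0) (hy : y ≠ 0) : (tens x y : (A →ₗ[Ω] Ω) →ₗ[Ω] A) ≠ 0 := by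
  intro h
  obtain ⟨f, hf⟩ := exists_dual (Ω := Ω) hx
  have h1 := congrArg (fun g => g f) h
  simp only [tens_apply, hf, one_smul, LinearMap.zero_apply] at h1
  exact hy h1

variable (N : Module.End Ω A)

/-- The monodromy operator on the dual space. -/
abbrev dualN : Module.End Ω (A →ₗ[Ω] Ω) := ppc N (0 : Module.End Ω Ω)

/-- The monodromy operator on `A ⊗ A`. -/
abbrev sqN : Module.End Ω ((A →ₗ[Ω] Ω) →ₗ[Ω] A) := ppc (dualN N) N

lemma sqN_eq : sqN N = LinearMap.compRight Ω N +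
    LinearMap.lcomp Ω A (LinearMap.lcomp Ω Ω N : Module.End Ω (A →ₗ[Ω] Ω)) := by
  refine LinearMap.ext fun F => LinearMap.ext fun f => ?_
  have h1 : dualN N f = -(f ∘ₗ N) := by
    refine LinearMap.ext fun x => ?_
    simp [ppc_apply]
  have h2 : sqN N F f = N (F f) - F (dualN N f) := rfl
  rw [h2, h1, map_neg, sub_neg_eq_add]
  rfl

lemma sqN_pow (s : ℕ) (F : (A →ₗ[Ω] Ω) →ₗ[Ω] A) (f : A →ₗ[Ω] Ω) :
    ((sqN N) ^ s) F f = ∑ m ∈ Finset.range (s + 1),
      (s.choose m) • (N ^ m) (F (f ∘ₗ (N ^ (s - m)))) := by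
  have hc : Commute (LinearMap.compRight Ω N : Module.End Ω ((A →ₗ[Ω] Ω) →ₗ[Ω] A))
      (LinearMap.lcomp Ω A (LinearMap.lcomp Ω Ω N : Module.End Ω (A →ₗ[Ω] Ω))) := by
    refine LinearMap.ext fun F => LinearMap.ext fun f => rfl
  rw [sqN_eq, hc.add_pow, LinearMap.sum_apply, LinearMap.sum_apply]
  refine Finset.sum_congr rfl fun m _ => ?_
  rw [Module.End.mul_apply, Module.End.mul_apply, Module.End.natCast_apply, map_nsmul, map_nsmul,
    LinearMap.smul_apply, post_pow, pre_pow, LinearMap.comp_apply, LinearMap.comp_apply, pre_pow]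

lemma sqN_pow_zero {m s : ℕ} (hm : N ^ (m + 1) = 0) (hs : 2 * m + 1 ≤ s) : (sqN N) ^ s = 0 := by
  refine LinearMap.ext fun F => LinearMap.ext fun f => ?_
  rw [sqN_pow, LinearMap.zero_apply, LinearMap.zero_apply]
  refine Finset.sum_eq_zero fun j hj => ?_
  have hz : ∀ k, m + 1 ≤ k → N ^ k = 0 := fun k hk => pow_eq_zero_of_le hk hm
  by_cases h : m + 1 ≤ j
  · rw [hz j h, LinearMap.zero_apply, smul_zero]
  · have h1 : m + 1 ≤ s - j := by omega
    rw [hz _ h1, LinearMap.comp_zero, map_zero, map_zero, smul_zero]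

lemma sqN_tens_zero {m j : ℕ} (hm : N ^ (m + 1) = 0) {x y : A} (hx : (N ^ j) x = 0) :
    ((sqN N) ^ (j + m)) (tens x y) = 0 := by
  refine LinearMap.ext fun f => ?_
  rw [sqN_pow, LinearMap.zero_apply]
  refine Finset.sum_eq_zero fun k hk => ?_
  rw [Finset.mem_range] at hk
  rw [tens_apply, LinearMap.comp_apply, map_smul]
  by_cases h : m + 1 ≤ k
  · rw [pow_eq_zero_of_le h hm, LinearMap.zero_apply, smul_zero, smul_zero]
  · have h1 : j + m - k = (m - k) + j := by omega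
    rw [h1, pow_add, Module.End.mul_apply, hx, map_zero, map_zero, zero_smul, smul_zero]

lemma sqN_range {m j : ℕ} (hm : N ^ (m + 1) = 0) (F : (A →ₗ[Ω] Ω) →ₗ[Ω] A) (f : A →ₗ[Ω] Ω) :
    ∃ z, ((sqN N) ^ (j + m)) F f = (N ^ j) z := by
  rw [sqN_pow]
  have h : ∀ k ∈ Finset.range (j + m + 1), ((j + m).choose k) • (N ^ k)
      (F (f ∘ₗ (N ^ (j + m - k)))) ∈ LinearMap.range (N ^ j) := by
    intro k hk
    refine Submodule.smul_of_tower_mem _ _ ?_
    by_cases h : j ≤ k
    · obtain ⟨l, rfl⟩ := Nat.exists_eq_add_of_le h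
      rw [pow_add, Module.End.mul_apply]
      exact ⟨_, rfl⟩
    · have h1 : m + 1 ≤ j + m - k := by omega
      rw [pow_eq_zero_of_le h1 hm, LinearMap.comp_zero, map_zero, map_zero]
      exact Submodule.zero_mem _
  obtain ⟨z, hz⟩ := Submodule.sum_mem _ h
  exact ⟨z, hz.symm⟩

variable {N}

/-- The Frobenius on `x ⊗ y`. -/
lemma arr_tens {φ : A ≃ₗ[Ω] A} {α : Ω ≃ₗ[Ω] Ω} (hα : ∀ c, α c = c) (x y : A) :
    arr (LinearEquiv.arrowCongr φ α) φ (tens x y) = tens (φ x) (φ y) := by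
  refine LinearMap.ext fun f => ?_
  obtain ⟨g, rfl⟩ := (LinearEquiv.arrowCongr φ α).surjective f
  have h1 : arr (LinearEquiv.arrowCongr φ α) φ (tens x y) (LinearEquiv.arrowCongr φ α g) =
      φ (tens x y g) := arr_apply _ _ _ _
  have h2 : (LinearEquiv.arrowCongr φ α g) (φ x) = g x := by
    have := arr_apply φ α g x
    rw [hα] at this
    exact this
  rw [h1, tens_apply, tens_apply, h2, map_smul]

lemma tens_sub_left (x x' y : A) : (tens (x - x') y : (A →ₗ[Ω] Ω) →ₗ[Ω] A) = tens x y - tens x' y := by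
  refine LinearMap.ext fun f => ?_
  rw [LinearMap.sub_apply, tens_apply, tens_apply, tens_apply, map_sub, sub_smul]

lemma tens_sub_right (x y y' : A) : (tens x (y - y') : (A →ₗ[Ω] Ω) →ₗ[Ω] A) = tens x y - tens x y' := by
  refine LinearMap.ext fun f => ?_
  rw [LinearMap.sub_apply, tens_apply, tens_apply, tens_apply, smul_sub]

lemma tens_smul_left (c : Ω) (x y : A) : (tens (c • x) y : (A →ₗ[Ω] Ω) →ₗ[Ω] A) = c • tens x y := by
  refine LinearMap.ext fun f => ?_
  rw [LinearMap.smul_apply, tens_apply, tens_apply, map_smul, smul_eq_mul, mul_smul]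

lemma tens_smul_right (c : Ω) (x y : A) : (tens x (c • y) : (A →ₗ[Ω] Ω) →ₗ[Ω] A) = c • tens x y := by
  refine LinearMap.ext fun f => ?_
  rw [LinearMap.smul_apply, tens_apply, tens_apply, smul_comm]

lemma tens_gen_aux {φ : A ≃ₗ[Ω] A} {α : Ω ≃ₗ[Ω] Ω} (hα : ∀ c, α c = c) {e e' : Ω} (n : ℕ) :
    ∀ (k l : ℕ) (x y : A), k + l ≤ n → ((en φ - e • 1) ^ k) x = 0 →
      ((en φ - e' • 1) ^ l) y = 0 →
      ((arr (LinearEquiv.arrowCongr φ α) φ - (e * e') • 1) ^ n) (tens x y) = 0 := by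
  induction n with
  | zero =>
    intro k l x y hkl hx hy
    obtain ⟨rfl, rfl⟩ : k = 0 ∧ l = 0 := by omega
    rw [pow_zero, Module.End.one_apply] at hx
    rw [hx, pow_zero, Module.End.one_apply]
    refine LinearMap.ext fun f => ?_
    rw [tens_apply, map_zero, zero_smul, LinearMap.zero_apply]
  | succ n ih =>
    intro k l x y hkl hx hy
    rcases k with _ | k
    · rw [pow_zero, Module.End.one_apply] at hx
      have : (tens x y : (A →ₗ[Ω] Ω) →ₗ[Ω] A) = 0 := by
        rw [hx]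
        refine LinearMap.ext fun f => ?_
        rw [tens_apply, map_zero, zero_smul, LinearMap.zero_apply]
      rw [this, map_zero]
    rcases l with _ | l
    · rw [pow_zero, Module.End.one_apply] at hy
      have : (tens x y : (A →ₗ[Ω] Ω) →ₗ[Ω] A) = 0 := by
        rw [hy]
        refine LinearMap.ext fun f => ?_
        rw [tens_apply, smul_zero, LinearMap.zero_apply]
      rw [this, map_zero]
    have h1 : (arr (LinearEquiv.arrowCongr φ α) φ - (e * e') • 1) (tens x y) =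
        tens (φ x - e • x) (φ y) + e • tens x (φ y - e' • y) := by
      rw [LinearMap.sub_apply, arr_tens hα, LinearMap.smul_apply, Module.End.one_apply,
        tens_sub_left, tens_sub_right, tens_smul_left, tens_smul_right, smul_sub, smul_smul]
      abel
    rw [_root_.pow_succ, Module.End.mul_apply, h1, map_add, map_smul]
    have hcomm : ∀ (t : Ω) (k : ℕ) (x : A), ((en φ - t • 1) ^ k) (φ x) =
        φ (((en φ - t • 1) ^ k) x) := by
      intro t k x
      have hc : Commute ((en φ - t • (1 : Module.End Ω A)) ^ k) (en φ) :=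
        (((Commute.refl (en φ)).sub_left ((Commute.one_left _).smul_left t))).pow_left k
      exact congrArg (fun g : Module.End Ω A => g x) hc.eq
    have hx' : ((en φ - e • 1) ^ k) (φ x - e • x) = 0 := by
      have : φ x - e • x = (en φ - e • (1 : Module.End Ω A)) x := rfl
      rw [this, ← Module.End.mul_apply, ← _root_.pow_succ]
      exact hx
    have hy' : ((en φ - e' • 1) ^ l) (φ y - e' • y) = 0 := by
      have : φ y - e' • y = (en φ - e' • (1 : Module.End Ω A)) y := rfl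
      rw [this, ← Module.End.mul_apply, ← _root_.pow_succ]
      exact hy
    rw [ih k (l + 1) _ _ (by omega) hx' (by rw [hcomm, hy, map_zero]),
      ih (k + 1) l _ _ (by omega) hx hy', smul_zero, add_zero]

lemma tens_gen {φ : A ≃ₗ[Ω] A} {α : Ω ≃ₗ[Ω] Ω} (hα : ∀ c, α c = c) {e e' : Ω} {x y : A}
    (hx : x ∈ (en φ).maxGenEigenspace e) (hy : y ∈ (en φ).maxGenEigenspace e') :
    (tens x y : (A →ₗ[Ω] Ω) →ₗ[Ω] A) ∈
      (arr (LinearEquiv.arrowCongr φ α) φ).maxGenEigenspace (e * e') := by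
  rw [Module.End.mem_maxGenEigenspace] at hx hy ⊢
  obtain ⟨k, hk⟩ := hx
  obtain ⟨l, hl⟩ := hy
  exact ⟨k + l, tens_gen_aux hα (k + l) k l x y le_rfl hk hl⟩

end

section

variable {Ω A : Type} [Field Ω] [CharZero Ω] [IsAlgClosed Ω] [AddCommGroup A] [Module Ω A]
  [FiniteDimensional Ω A]

lemma WS_of_gen {V : Type} [AddCommGroup V] [Module Ω V] {q : ℕ} {Φ : Module.End Ω V} {e : Ω}
    {w : ℤ} (he : IsWeilNumber q w e) {x : V} (hx : x ∈ Φ.maxGenEigenspace e) : x ∈ WS q Φ w :=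
  le_ES Φ (S := WW Ω q w) he hx

/-- **mw purity of `A` from mw purity of `A ⊗ A`.** -/
theorem pure_sqrt {q : ℕ} (hq : 1 < q) {φ : A ≃ₗ[Ω] A} {α : Ω ≃ₗ[Ω] Ω} (hα : ∀ c, α c = c)
    {N : Module.End Ω A} (hN : ∀ x, N (en φ x) = (q : Ω) • en φ (N x)) (hnil : IsNilpotent N)
    {w : ℤ} (h : IsMWPure q (2 * w) (arr (LinearEquiv.arrowCongr φ α) φ) (sqN N)) :
    IsMWPure q w (en φ) N := by
  obtain ⟨W, hWU, hWw⟩ := t_wtb Ω q hq
  have hq0 : (q : Ω) ≠ 0 := by exact_mod_cast (by omega : q ≠ 0)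
  set E : Module.End Ω ((A →ₗ[Ω] Ω) →ₗ[Ω] A) := arr (LinearEquiv.arrowCongr φ α) φ with hE
  -- the relation on `A ⊗ A`
  have hND : ∀ f, dualN N (arr φ α f) = (q : Ω) • arr φ α (dualN N f) := by
    intro f
    refine arr_rel hq0 hN (fun c => ?_) f
    rw [LinearMap.zero_apply, LinearMap.zero_apply, map_zero, smul_zero]
  have hNE : ∀ F, sqN N (E F) = (q : Ω) • E (sqN N F) := fun F => arr_rel hq0 hND hN F
  have hrE := weil_of_pure h
  have hbij := t_frm Ω _ q hq (2 * w) E (sqN N) hrE hNE h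
  -- weights of products
  have hmul : ∀ (a b : ℤ) (x y : Ω), IsWeilNumber q a x → IsWeilNumber q b y →
      IsWeilNumber q (a + b) (x * y) := by
    intro a b x y hx hy
    have hUx : W.U x := (hWU x).2 ⟨a, hx⟩
    have hUy : W.U y := (hWU y).2 ⟨b, hy⟩
    obtain ⟨c, hc⟩ := (hWU _).1 (W.mul _ _ hUx hUy)
    have h1 := W.w_mul _ _ hUx hUy
    rw [hWw _ _ hx, hWw _ _ hy, hWw _ _ hc] at h1
    have h2 : c = a + b := by exact_mod_cast h1
    rwa [h2] at hc
  have hU1 : W.U 1 := (hWU 1).2 ⟨0, IsWeilNumber.one _⟩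
  have hdiv : ∀ (a b : ℤ) (x y : Ω), IsWeilNumber q a (x * y) → IsWeilNumber q b y →
      IsWeilNumber q (a - b) x := by
    intro a b x y hx hy
    have hUx : W.U (x * y) := (hWU _).2 ⟨a, hx⟩
    have hUy : W.U y := (hWU y).2 ⟨b, hy⟩
    have h3 := W.w_div hU1 hUx hUy
    rw [mul_div_cancel_right₀ _ (W.ne _ hUy), hWw _ _ hx, hWw _ _ hy] at h3
    obtain ⟨c, hc⟩ := (hWU _).1 h3.1
    have h1 := h3.2
    rw [hWw _ _ hc] at h1
    have h2 : c = a - b := by exact_mod_cast h1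
    rwa [h2] at hc
  -- the trivial case
  by_cases hA : Subsingleton A
  · refine t_tom Ω A q hq w _ N (fun e he => ?_) hN fun j => ?_
    · exfalso
      obtain ⟨x, hx, hx0⟩ := Submodule.exists_mem_ne_zero_of_ne_bot (ne_bot_iff.2 he)
      exact hx0 (Subsingleton.elim _ _)
    · refine ⟨fun x _ => ?_, fun x _ y _ _ => Subsingleton.elim _ _, fun x _ => ⟨0, ?_, ?_⟩⟩
      · rw [Subsingleton.elim ((N ^ j) x) 0]
        exact Submodule.zero_mem _
      · exact Submodule.zero_mem _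
      · exact Subsingleton.elim _ _
  rw [not_subsingleton_iff_nontrivial] at hA
  -- the index of nilpotency
  obtain ⟨m, hm1, hm0⟩ : ∃ m : ℕ, N ^ (m + 1) = 0 ∧ N ^ m ≠ 0 := by
    classical
    have hex : ∃ k, N ^ k = 0 := hnil
    have h0 : Nat.find hex ≠ 0 := by
      intro h0
      have := Nat.find_spec hex
      rw [h0, pow_zero] at this
      exact one_ne_zero this
    obtain ⟨m, hm⟩ := Nat.exists_eq_succ_of_ne_zero h0
    refine ⟨m, ?_, Nat.find_min hex (by omega)⟩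
    have := Nat.find_spec hex
    rwa [hm] at this
  obtain ⟨e0, y, hy, hNy⟩ : ∃ e0, ∃ y ∈ (en φ).maxGenEigenspace e0, (N ^ m) y ≠ 0 := by
    by_contra hcon
    push Not at hcon
    exact hm0 (ext_gen (en φ) fun e x hx => by rw [hcon e x hx, LinearMap.zero_apply])
  have hy0 : y ≠ 0 := fun h0 => hNy (by rw [h0, map_zero])
  have hroot : ∀ {V : Type} [AddCommGroup V] [Module Ω V] [FiniteDimensional Ω V]
      {Φ : Module.End Ω V} {e : Ω} {x : V}, x ≠ 0 → x ∈ Φ.maxGenEigenspace e →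
      e ∈ Φ.charpoly.roots := by
    intro V _ _ _ Φ e x hx0 hx
    refine ne_bot_iff.1 fun h0 => hx0 ?_
    rw [h0, Submodule.mem_bot] at hx
    exact hx
  -- the weight of `y`
  have hyy := tens_gen (α := α) hα hy hy
  obtain ⟨s, hs⟩ := hrE _ (hroot (tens_ne hy0 hy0) hyy)
  have hNm : (N ^ m) y ∈ (en φ).maxGenEigenspace (e0 / (q : Ω) ^ m) := by
    have : ∀ k : ℕ, (N ^ k) y ∈ (en φ).maxGenEigenspace (e0 / (q : Ω) ^ k) := by
      intro k
      induction k with
      | zero => simpa using hy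
      | succ k ih =>
        have h1 := N_eig hq hN _ ih
        rw [div_div, ← _root_.pow_succ, ← Module.End.mul_apply, ← _root_.pow_succ'] at h1
        exact h1
    exact this m
  have hqm : IsWeilNumber q (2 * m) ((q : Ω) ^ m) := by
    have := (qWeil (Ω := Ω) q).pow m
    rwa [mul_comm] at this
  have hs' : IsWeilNumber q (s - 4 * m) (e0 / (q : Ω) ^ m * (e0 / (q : Ω) ^ m)) := by
    have h1 : e0 / (q : Ω) ^ m * (e0 / (q : Ω) ^ m) * (((q : Ω) ^ m) * ((q : Ω) ^ m)) =
        e0 * e0 := by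
      have : (q : Ω) ^ m ≠ 0 := pow_ne_zero _ hq0
      field_simp
    have h2 := hdiv s (2 * m + 2 * m) _ _ (by rw [h1]; exact hs) (hmul _ _ _ _ hqm hqm)
    have h3 : s - (2 * m + 2 * m) = s - 4 * m := by ring
    rwa [h3] at h2
  have hyyW : (tens y y : (A →ₗ[Ω] Ω) →ₗ[Ω] A) ∈ WS q E s := WS_of_gen hs hyy
  have hNyW : (tens ((N ^ m) y) ((N ^ m) y) : (A →ₗ[Ω] Ω) →ₗ[Ω] A) ∈ WS q E (s - 4 * m) :=
    WS_of_gen hs' (tens_gen hα hNm hNm)
  have hb1 : s ≤ 2 * w + 2 * m := by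
    by_contra hcon
    push Not at hcon
    obtain ⟨j, hj⟩ := Int.eq_ofNat_of_zero_le (show 0 ≤ s - 2 * w by omega)
    have h1 := (hbij j).injOn
    have h2 : 2 * w + (j : ℤ) = s := by omega
    rw [h2] at h1
    have h3 : (sqN N) ^ j = 0 := sqN_pow_zero N hm1 (by omega)
    refine tens_ne hy0 hy0 (h1 hyyW (Submodule.zero_mem _) ?_)
    rw [h3, LinearMap.zero_apply, LinearMap.zero_apply]
  have hb2 : 2 * w + 2 * m ≤ s := by
    by_contra hcon
    push Not at hcon
    obtain ⟨j, hj⟩ := Int.eq_ofNat_of_zero_le (show 0 ≤ 2 * w + 4 * m - s by omega)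
    have h1 := (hbij j).surjOn
    have h2 : 2 * w - (j : ℤ) = s - 4 * m := by omega
    rw [h2] at h1
    have h3 : (sqN N) ^ j = 0 := sqN_pow_zero N hm1 (by omega)
    obtain ⟨F, -, hF⟩ := h1 hNyW
    rw [h3, LinearMap.zero_apply] at hF
    exact tens_ne hNy hNy hF.symm
  have hs2 : s = 2 * (w + m) := by omega
  have he0 : IsWeilNumber q (w + m) e0 := by
    refine IsWeilNumber.of_pow (k := 2) (by norm_num) ?_
    rw [sq]
    rw [hs2] at hs
    exact_mod_cast hs
  have hNmW : IsWeilNumber q (w - m) (e0 / (q : Ω) ^ m) := by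
    have h1 := hdiv (w + m) (2 * m) (e0 / (q : Ω) ^ m) ((q : Ω) ^ m)
      (by rw [div_mul_cancel₀ _ (pow_ne_zero _ hq0)]; exact he0) hqm
    have h3 : w + m - 2 * m = w - (m : ℤ) := by ring
    rwa [h3] at h1
  -- all eigenvalues are Weil numbers
  have hr : ∀ e ∈ (en φ).charpoly.roots, ∃ w : ℤ, IsWeilNumber q w e := by
    intro e he
    obtain ⟨x, hx, hx0⟩ := Submodule.exists_mem_ne_zero_of_ne_bot (ne_bot_iff.2 he)
    obtain ⟨t, ht⟩ := hrE _ (hroot (tens_ne hx0 hy0) (tens_gen (α := α) hα hx hy))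
    exact ⟨_, hdiv t (w + m) e e0 ht he0⟩
  -- tensors of weight vectors
  have htens : ∀ (a b : ℤ) (x y : A), x ∈ WS q (en φ) a → y ∈ WS q (en φ) b →
      (tens x y : (A →ₗ[Ω] Ω) →ₗ[Ω] A) ∈ WS q E (a + b) := by
    intro a b x y hx hy
    have h1 : WS q (en φ) a ≤ (WS q E (a + b)).comap
        ({ toFun := fun x => tens x y
           map_add' := fun x x' => LinearMap.ext fun f => by
            rw [LinearMap.add_apply, tens_apply, tens_apply, tens_apply, map_add, add_smul]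
           map_smul' := fun c x => tens_smul_left c x y } :
          A →ₗ[Ω] ((A →ₗ[Ω] Ω) →ₗ[Ω] A)) := by
      refine iSup₂_le fun e he x hx => ?_
      change tens x y ∈ WS q E (a + b)
      have h2 : WS q (en φ) b ≤ (WS q E (a + b)).comap
          ({ toFun := fun y => tens x y
             map_add' := fun y y' => LinearMap.ext fun f => by
              rw [LinearMap.add_apply, tens_apply, tens_apply, tens_apply, smul_add]
             map_smul' := fun c y => tens_smul_right c x y } :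
            A →ₗ[Ω] ((A →ₗ[Ω] Ω) →ₗ[Ω] A)) := by
        refine iSup₂_le fun e' he' y hy => ?_
        change tens x y ∈ WS q E (a + b)
        exact WS_of_gen (hmul _ _ _ _ he he') (tens_gen hα hx hy)
      exact h2 hy
    exact h1 hx
  refine t_tom Ω A q hq w _ N hr hN fun j => ⟨?_, ?_, ?_⟩
  · intro x hx
    have h1 := N_pow_W hq hN j (w + j) hx
    have h2 : w + (j : ℤ) - 2 * j = w - j := by ring
    rw [h2] at h1
    exact h1
  · intro x hx x' hx' hxx
    by_contra hne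
    have hz : x - x' ≠ 0 := sub_ne_zero.2 hne
    have hzW : x - x' ∈ WS q (en φ) (w + j) := Submodule.sub_mem _ hx hx'
    have hzN : (N ^ j) (x - x') = 0 := by rw [map_sub, hxx, sub_self]
    have h1 := (hbij (j + m)).injOn
    have h2 := htens _ _ _ _ hzW (WS_of_gen he0 hy)
    have h3 : (w : ℤ) + j + (w + m) = 2 * w + ((j + m : ℕ) : ℤ) := by push_cast; ring
    rw [h3] at h2
    refine tens_ne hz hy0 (h1 h2 (Submodule.zero_mem _) ?_)
    rw [sqN_tens_zero N hm1 hzN, map_zero]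
  · intro z hz
    have h2 := htens _ _ _ _ (WS_of_gen hNmW hNm) hz
    have h3 : (w : ℤ) - m + (w - j) = 2 * w - ((j + m : ℕ) : ℤ) := by push_cast; ring
    rw [h3] at h2
    obtain ⟨F, -, hF⟩ := (hbij (j + m)).surjOn h2
    obtain ⟨f, hf⟩ := exists_dual (Ω := Ω) hNy
    obtain ⟨z', hz'⟩ := sqN_range N (j := j) hm1 F f
    have h4 : (N ^ j) z' = z := by
      rw [← hz', hF, tens_apply, hf, one_smul]
    obtain ⟨a, ⟨-, ha⟩, b, ⟨-, hb⟩, hab⟩ := decomp (en φ) (WW Ω q (w + j)) ⊤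
      (fun _ _ => Submodule.mem_top) (Submodule.mem_top (x := z'))
    refine ⟨a, ha, ?_⟩
    have h5 := N_pow_W hq hN j (w + j) ha
    have h6 := N_pow_Wc hq hN j (w + j) hb
    have h7 : w + (j : ℤ) - 2 * j = w - j := by ring
    rw [h7] at h5 h6
    have h8 : (N ^ j) b = z - (N ^ j) a := by
      rw [← h4, ← hab, map_add]; abel
    have h9 : (N ^ j) b ∈ ES (en φ) (WW Ω q (w - j)) := by
      rw [h8]
      exact Submodule.sub_mem _ hz h5
    have h10 := (ES_disjoint (en φ) (disjoint_compl_right (a := WW Ω q (w - j)))).le_bot ⟨h9, h6⟩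
    rw [Submodule.mem_bot] at h10
    rw [h10] at h8
    exact (sub_eq_zero.1 h8.symm).symm

end

end Pool.Agent.Run7.h261.PW
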