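import Pool.Agent.Run7.h261.PW.Split
import Pool.Agent.Run7.h261.PW.Sqrt

/-!
# The `p`-adic monodromy-weight conjecture for hyperkähler varieties
-/

set_option autoImplicit false
set_option linter.unusedSectionVars false

namespace Pool.Agent.Run7.h261.PW

open Module NumberField
open Pool.Agent.W401.Cheb Pool.Agent.N184.HK Pool.Agent.Y143 Pool.Agent.Run7.h261.MT

section functorial

variable {Ω : Type} [Field Ω] {V : Type} [AddCommGroup V] [Module Ω V]
  {V' : Type} [AddCommGroup V'] [Module Ω V']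

lemma functorial' {N : Module.End Ω V} {M : ℤ → Submodule Ω V} (h : IsMonodromyFiltration N M)
    {N' : Module.End Ω V'} {M' : ℤ → Submodule Ω V'} (h' : IsMonodromyFiltration N' M')
    (A : V →ₗ[Ω] V') {c : Ω} (hc : c ≠ 0) (hN : ∀ x, N' (A x) = c • A (N x)) (s : ℤ) {x : V}
    (hx : x ∈ M s) : A x ∈ M' s :=
  h.on.functorial h'.on A (fun _ _ => Submodule.mem_top) hc (fun x _ => hN x) s hx

lemma fil_le {N : Module.End Ω V} {M M' : ℤ → Submodule Ω V} (h : IsMonodromyFiltration N M)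
    (h' : IsMonodromyFiltration N M') (s : ℤ) : M s ≤ M' s := fun x hx =>
  functorial' h h' LinearMap.id one_ne_zero (fun x => by rw [one_smul]; rfl) s hx

end functorial

section weil

variable {Ω : Type} [Field Ω] [CharZero Ω]

lemma weil_base {q n : ℕ} {w : ℤ} {β : Ω} (h : IsWeilNumber q (n * w) β) :
    IsWeilNumber (q ^ n) w β := by
  obtain ⟨h1, h2⟩ := h
  refine ⟨h1, fun z hz => ?_⟩
  rw [h2 z hz]
  push_cast
  rw [← Real.rpow_natCast, ← Real.rpow_mul (Nat.cast_nonneg q)]
  congr 1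
  ring

end weil

section loc

variable {K : Type} [Field K] {Ω : Type} [Field Ω] [CharZero Ω] {P : WeilGroup K}

lemma WDSpace.IsWD.mul' {D : WDSpace Ω P.G} (hD : D.IsWD P) (g h : P.G) (x : D.V) :
    D.r (g * h) x = D.r g (D.r h x) := hD.mul g h x

lemma WDSpace.IsWD.comm' {D : WDSpace Ω P.G} (hD : D.IsWD P) (g : P.G) (x : D.V) :
    D.N (D.r g x) = (P.p : Ω) ^ P.v g • D.r g (D.N x) := hD.comm g x

lemma WDSpace.IsWD.one {D : WDSpace Ω P.G} (h : D.IsWD P) (x : D.V) : D.r 1 x = x := by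
  have h1 := h.mul' 1 1 x
  rw [mul_one] at h1
  exact ((D.r 1).injective h1).symm

lemma WeilGroup.v_one (P : WeilGroup K) : P.v 1 = 0 := by
  have := P.v_mul 1 1
  rw [mul_one] at this
  omega

lemma WeilGroup.v_pow (P : WeilGroup K) (g : P.G) (n : ℕ) : P.v (g ^ n) = n * P.v g := by
  induction n with
  | zero => rw [pow_zero, P.v_one]; simp
  | succ n ih => rw [_root_.pow_succ, P.v_mul, ih]; push_cast; ring

lemma WeilGroup.v_inv (P : WeilGroup K) (g : P.G) : P.v g⁻¹ = -P.v g := by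
  have := P.v_mul g g⁻¹
  rw [mul_inv_cancel, P.v_one] at this
  omega

lemma WDSpace.IsWD.pow {D : WDSpace Ω P.G} (h : D.IsWD P) (g : P.G) (n : ℕ) (x : D.V)
    (hx : D.r g x = x) : D.r (g ^ n) x = x := by
  induction n with
  | zero => rw [pow_zero]; exact h.one x
  | succ n ih => rw [_root_.pow_succ, h.mul', hx, ih]

lemma isWD_tate (m : ℤ) : (WDSpace.tate P m : WDSpace Ω P.G).IsWD P where
  mul g h x := by
    change (P.p : Ω) ^ (m * P.v (g * h)) • x =
      (P.p : Ω) ^ (m * P.v g) • (P.p : Ω) ^ (m * P.v h) • x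
    rw [smul_smul, ← zpow_add₀ (by exact_mod_cast P.prime.ne_zero), P.v_mul, mul_add]
  comm g x := by
    change (0 : Ω) = _
    change (0 : Ω) = (P.p : Ω) ^ P.v g • (P.p : Ω) ^ (m * P.v g) • (0 : Ω)
    rw [smul_zero, smul_zero]
  nil := ⟨1, by rw [pow_one]⟩
  inertia g hg := ⟨1, one_pos, fun x => by
    change (P.p : Ω) ^ (m * P.v (g ^ 1)) • x = x
    rw [pow_one, hg, mul_zero, zpow_zero, one_smul]⟩

lemma isWD_hom {A B : WDSpace Ω P.G} (hA : A.IsWD P) (hB : B.IsWD P) : (A.hom B).IsWD P where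
  mul g h f := by
    refine LinearMap.ext fun x => ?_
    change B.r (g * h) (f ((A.r (g * h)).symm x)) =
      B.r g (B.r h (f ((A.r h).symm ((A.r g).symm x))))
    rw [hB.mul']
    have h1 : (A.r (g * h)).symm x = (A.r h).symm ((A.r g).symm x) := by
      rw [LinearEquiv.symm_apply_eq, hA.mul', LinearEquiv.apply_symm_apply,
        LinearEquiv.apply_symm_apply]
    rw [h1]
  comm g f := arr_rel (P.pow_ne _) (hA.comm g) (hB.comm g) f
  nil := ppc_nil hA.nil hB.nil
  inertia g hg := by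
    obtain ⟨n, hn, h1⟩ := hA.inertia g hg
    obtain ⟨m, hm, h2⟩ := hB.inertia g hg
    refine ⟨n * m, Nat.mul_pos hn hm, fun f => LinearMap.ext fun x => ?_⟩
    have h3 : ∀ x, A.r (g ^ (n * m)) x = x := fun x => by
      rw [_root_.pow_mul]; exact hA.pow _ m x (h1 x)
    have h4 : ∀ x, B.r (g ^ (n * m)) x = x := fun x => by
      rw [mul_comm, _root_.pow_mul]; exact hB.pow _ n x (h2 x)
    change B.r (g ^ (n * m)) (f ((A.r (g ^ (n * m))).symm x)) = f x
    rw [h4]
    congr 1
    rw [LinearEquiv.symm_apply_eq, h3]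

lemma isWD_loc {D : ℕ → WDSpace Ω P.G} (hD : ∀ i, (D i).IsWD P) : ∀ e, (loc P D e).IsWD P
  | .H i => hD i
  | .tate m => isWD_tate m
  | .hom a b => isWD_hom (isWD_loc hD a) (isWD_loc hD b)

/-- mw purity for the elements of positive valuation. -/
def Mw (P : WeilGroup K) (D : WDSpace Ω P.G) (w : ℤ) : Prop :=
  ∀ (g : P.G) (n : ℕ), 0 < n → P.v g = n → IsMWPure (P.p ^ n) w (en (D.r g)) D.N

lemma one_lt_pow (P : WeilGroup K) {n : ℕ} (hn : 0 < n) : 1 < P.p ^ n :=
  Nat.one_lt_pow hn.ne' P.prime.one_lt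

lemma rel_nat {D : WDSpace Ω P.G} (hD : D.IsWD P) {g : P.G} {n : ℕ} (hg : P.v g = n) (x : D.V) :
    D.N (en (D.r g) x) = ((P.p ^ n : ℕ) : Ω) • en (D.r g) (D.N x) := by
  have h := hD.comm' g x
  rw [hg, zpow_natCast] at h
  push_cast
  exact h

lemma mw_of_pure {D : WDSpace Ω P.G} {w : ℤ} (h : D.IsPure P w) : Mw P D w := by
  obtain ⟨M, hM, h⟩ := h
  intro g n hn hg
  refine ⟨M, hM, (h g).1, fun a α x hx hx' hα => weil_base ?_⟩
  have h1 := (h g).2 a α x hx hx' hα
  rw [hg] at h1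
  rwa [show (n : ℤ) * (a + w) = (w + a) * n by ring]

lemma pure_of_mw {D : WDSpace Ω P.G} (hD : D.IsWD P) {w : ℤ} (h : Mw P D w) : D.IsPure P w := by
  obtain ⟨k, hk⟩ := hD.nil
  have hM := isMonodromyFiltration_monFil (N := D.N) ⟨k, hk⟩
  set M := monFil D.N
  have hst : ∀ g a x, x ∈ M a → D.r g x ∈ M a := fun g a x hx =>
    functorial' hM hM (D.r g).toLinearMap (P.pow_ne _) (fun x => hD.comm g x) a hx
  have hpos : ∀ g, 0 < P.v g → ∀ (a : ℤ) (α : Ω) (x : D.V), x ∈ M a → x ∉ M (a - 1) →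
      D.r g x - α • x ∈ M (a - 1) → IsWeilNumber P.p ((w + a) * P.v g) α := by
    intro g hg a α x hx hx' hα
    obtain ⟨n, hn⟩ := Int.eq_ofNat_of_zero_le hg.le
    obtain ⟨M', hM', -, hw⟩ := h g n (by omega) hn
    have h1 := (hw a α x (fil_le hM hM' a hx) (fun h0 => hx' (fil_le hM' hM _ h0))
      (fil_le hM hM' _ hα)).of_pow_base
    rw [hn]
    rwa [show (w + a) * (n : ℤ) = (n : ℤ) * (a + w) by ring]
  refine ⟨M, hM, fun g => ⟨hst g, fun a α x hx hx' hα => ?_⟩⟩
  change D.r g x - α • x ∈ M (a - 1) at hα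
  rcases lt_trichotomy (P.v g) 0 with hg | hg | hg
  · have hα0 : α ≠ 0 := by
      intro h0
      rw [h0, zero_smul, sub_zero] at hα
      have h1 := hst g⁻¹ _ _ hα
      rw [← hD.mul', inv_mul_cancel, hD.one] at h1
      exact hx' h1
    have h1 := hst g⁻¹ _ _ hα
    rw [map_sub, map_smul, ← hD.mul', inv_mul_cancel, hD.one] at h1
    have h2 := Submodule.smul_mem _ (-α⁻¹) h1
    have e : -α⁻¹ • (x - α • D.r g⁻¹ x) = D.r g⁻¹ x - α⁻¹ • x := by
      rw [smul_sub, smul_smul, neg_mul, inv_mul_cancel₀ hα0, neg_smul, neg_smul, one_smul]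
      abel
    rw [e] at h2
    have h3 := (hpos g⁻¹ (by rw [P.v_inv]; omega) a α⁻¹ x hx hx' h2).inv
    rw [inv_inv, P.v_inv] at h3
    rwa [show -((w + a) * -P.v g) = (w + a) * P.v g by ring] at h3
  · obtain ⟨n, hn, h1⟩ := hD.inertia g hg
    change ∀ x, D.r (g ^ n) x = x at h1
    have h2 : ∀ j : ℕ, D.r (g ^ j) x - α ^ j • x ∈ M (a - 1) := by
      intro j
      induction j with
      | zero =>
        rw [pow_zero, pow_zero, hD.one, one_smul, sub_self]
        exact Submodule.zero_mem _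
      | succ j ih =>
        have e : D.r (g ^ (j + 1)) x - α ^ (j + 1) • x =
            D.r g (D.r (g ^ j) x - α ^ j • x) + α ^ j • (D.r g x - α • x) := by
          rw [pow_succ' g, hD.mul', map_sub, map_smul, smul_sub, smul_smul, ← _root_.pow_succ]
          abel
        rw [e]
        exact Submodule.add_mem _ (hst g _ _ ih) (Submodule.smul_mem _ _ hα)
    have h3 := h2 n
    rw [h1] at h3
    have h4 : (1 - α ^ n) • x ∈ M (a - 1) := by rwa [sub_smul, one_smul]
    have h5 : α ^ n = 1 := by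
      by_contra hne
      refine hx' ?_
      have h6 : (1 - α ^ n) ≠ 0 := fun h0 => hne (sub_eq_zero.1 h0).symm
      have h7 := Submodule.smul_mem _ (1 - α ^ n)⁻¹ h4
      rwa [smul_smul, inv_mul_cancel₀ h6, one_smul] at h7
    rw [hg, mul_zero]
    refine IsWeilNumber.of_pow (k := n) hn ?_
    rw [h5, mul_zero]
    exact IsWeilNumber.one _
  · exact hpos g hg a α x hx hx' hα

end loc

section main

variable {K : Type} [Field K] {Ω : Type} [Field Ω] [CharZero Ω] [IsAlgClosed Ω] {P : WeilGroup K}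

lemma mw_hom {A B : WDSpace Ω P.G} (hA : A.IsWD P) (hB : B.IsWD P) {w w' : ℤ} (h1 : Mw P A w)
    (h2 : Mw P B w') : Mw P (A.hom B) (w' - w) := fun g n hn hg =>
  pure_hom (one_lt_pow P hn) (h1 g n hn hg) (h2 g n hn hg) (rel_nat hA hg) (rel_nat hB hg)

lemma mw_tate (m : ℤ) : Mw P (WDSpace.tate P m : WDSpace Ω P.G) (2 * m) := by
  intro g n hn hg
  have hp : (P.p : Ω) ≠ 0 := by exact_mod_cast P.prime.ne_zero
  refine ⟨fun a => if 0 ≤ a then ⊤ else ⊥, ⟨?_, ⟨-1, by simp⟩, ⟨0, by simp⟩, ?_, ?_, ?_⟩, ?_, ?_⟩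
  · intro a b hab
    dsimp only
    split_ifs with h1 h2
    · exact le_rfl
    · omega
    · exact bot_le
    · exact le_rfl
  · intro a x _
    exact Submodule.zero_mem _
  · intro a x _ hx
    rcases Nat.eq_zero_or_pos a with rfl | ha
    · rw [pow_zero, Module.End.one_apply] at hx
      exact hx
    · dsimp only
      rw [if_pos (by omega)]
      exact Submodule.mem_top
  · intro a y hy
    rcases Nat.eq_zero_or_pos a with rfl | ha
    · exact ⟨y, hy, by rw [pow_zero, Module.End.one_apply, sub_self]; exact Submodule.zero_mem _⟩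
    · refine ⟨0, Submodule.zero_mem _, ?_⟩
      rw [map_zero, sub_zero]
      dsimp only at hy
      rw [if_neg (by omega), Submodule.mem_bot] at hy
      rw [hy]
      exact Submodule.zero_mem _
  · intro a x hx
    dsimp only at hx ⊢
    split_ifs with h1
    · exact Submodule.mem_top
    · rw [if_neg h1, Submodule.mem_bot] at hx
      rw [hx, map_zero]
      exact Submodule.zero_mem _
  · intro a α x hx hx' hα
    dsimp only at hx hx' hα
    have ha : 0 ≤ a := by
      by_contra hcon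
      rw [if_neg hcon, Submodule.mem_bot] at hx
      exact hx' (by rw [hx]; exact Submodule.zero_mem _)
    have ha' : ¬ 0 ≤ a - 1 := by
      intro h0
      rw [if_pos h0] at hx'
      exact hx' Submodule.mem_top
    have ha0 : a = 0 := by omega
    rw [if_neg ha', Submodule.mem_bot] at hα hx'
    have h1 : (P.p : Ω) ^ (m * P.v g) • x - α • x = 0 := hα
    rw [← sub_smul] at h1
    rcases smul_eq_zero.1 h1 with h2 | h2
    · rw [sub_eq_zero] at h2
      rw [← h2, hg, ha0, zero_add]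
      refine weil_base ?_
      have h3 : ∀ k : ℤ, IsWeilNumber P.p (2 * k) ((P.p : Ω) ^ k) := by
        intro k
        rcases Int.eq_nat_or_neg k with ⟨l, rfl | rfl⟩
        · have := (qWeil (Ω := Ω) P.p).pow l
          rw [zpow_natCast, mul_comm]
          exact this
        · have := ((qWeil (Ω := Ω) P.p).pow l).inv
          rw [zpow_neg, zpow_natCast]
          rwa [show 2 * -(l : ℤ) = -(l * 2) by ring]
      have := h3 (m * n)
      rwa [show (n : ℤ) * (2 * m) = 2 * (m * n) by ring]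
    · exact absurd h2 hx'

lemma mw_two {D : ℕ → WDSpace Ω P.G} (hD : ∀ i, (D i).IsWD P) (h2 : Mw P (D 2) 2) :
    ∀ e : Expr, e.two → Mw P (loc P D e) e.wt
  | .H i, h => by
    obtain rfl : i = 2 := h
    exact h2
  | .tate m, _ => mw_tate m
  | .hom a b, h => mw_hom (isWD_loc hD a) (isWD_loc hD b) (mw_two hD h2 a h.1) (mw_two hD h2 b h.2)

end main

section hk

variable {K : Type} [Field K] [NumberField K] {Ω : Type} [Field Ω] [CharZero Ω] [IsAlgClosed Ω]
  [TopologicalSpace Ω] [IsTopologicalRing Ω] [T2Space Ω]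

/-- mw purity of the tensor constructions of even weight. -/
lemma HKPst.mw_even (R : HKPst K Ω) {e : Expr} (he : e.le R.X.d) (hw : Even e.wt) :
    Mw R.P (loc R.P R.F.D e) e.wt := by
  obtain ⟨N, f, ι, π, U, hU, hf, hι, hπ, hsum⟩ := split R.c R.rigid he (R.weyl e he hw)
  intro g n hn hg
  have hfle : ∀ k, (f k).le R.X.d := fun k => (hf k).1.le R.X.two_le
  have hWD := isWD_loc (P := R.P) R.F.isWD
  have : Finite (GK K ⧸ U) := Subgroup.quotient_finite_of_isOpen _ hU
  have hfi : U.FiniteIndex := Subgroup.finiteIndex_of_finite_quotient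
  obtain ⟨j, hj, -, hjU⟩ := Subgroup.exists_pow_mem_of_index_ne_zero hfi.index_ne_zero
    (R.P.toGal g)
  rw [← map_pow] at hjU
  have hvj : R.P.v (g ^ j) = (n * j : ℕ) := by
    rw [R.P.v_pow, hg]; push_cast; ring
  -- the maps
  let ι' := fun k => R.F.map e (f k) (ι k)
  let π' := fun k => R.F.map (f k) e (π k)
  have hsum' : ∀ x, ∑ k, π' k (ι' k x) = x := by
    have hgal : ∀ s : Finset (Fin N), GalMap R.c e e U (∑ k ∈ s, π k ∘ₗ ι k) := by
      intro s σ hσ x
      rw [LinearMap.sum_apply, LinearMap.sum_apply, map_sum]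
      refine Finset.sum_congr rfl fun k _ => ?_
      rw [LinearMap.comp_apply, LinearMap.comp_apply, hι k σ hσ, hπ k σ hσ]
    have h0 : R.F.map e e 0 = 0 := by
      have hz : GalMap R.c e e U 0 := fun σ _ x => by
        rw [LinearMap.zero_apply, LinearMap.zero_apply, map_zero]
      have := R.F.map_add e e U 0 0 ⟨he, he, hU, hz⟩ ⟨he, he, hU, hz⟩
      rw [add_zero] at this
      exact left_eq_add.1 this
    have h1 : ∀ s : Finset (Fin N), R.F.map e e (∑ k ∈ s, π k ∘ₗ ι k) =
        ∑ k ∈ s, π' k ∘ₗ ι' k := by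
      classical
      intro s
      induction s using Finset.induction_on with
      | empty => rw [Finset.sum_empty, Finset.sum_empty, h0]
      | insert a s ha ih =>
        rw [Finset.sum_insert ha, Finset.sum_insert ha,
          R.F.map_add e e U _ _ ⟨he, he, hU, ?_⟩ ⟨he, he, hU, hgal s⟩,
          ih, R.F.map_comp e (f a) e U _ _ ⟨he, hfle a, hU, hι a⟩ ⟨hfle a, he, hU, hπ a⟩]
        have := hgal {a}
        rwa [Finset.sum_singleton] at this
    have h2 : ∑ k, π k ∘ₗ ι k = LinearMap.id := by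
      refine LinearMap.ext fun x => ?_
      rw [LinearMap.sum_apply]
      exact hsum x
    have h3 := h1 Finset.univ
    rw [h2, R.F.map_id e he] at h3
    intro x
    have h4 := congrArg (fun g => g x) h3
    simp only [LinearMap.sum_apply, LinearMap.comp_apply, LinearMap.id_apply] at h4
    exact h4.symm
  have hιN : ∀ k x, ι' k ((loc R.P R.F.D e).N x) = (loc R.P R.F.D (f k)).N (ι' k x) := fun k =>
    R.F.map_N e (f k) U (ι k) ⟨he, hfle k, hU, hι k⟩
  have hπN : ∀ k x, π' k ((loc R.P R.F.D (f k)).N x) = (loc R.P R.F.D e).N (π' k x) := fun k =>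
    R.F.map_N (f k) e U (π k) ⟨hfle k, he, hU, hπ k⟩
  have hιr : ∀ k x, ι' k ((loc R.P R.F.D e).r (g ^ j) x) =
      (loc R.P R.F.D (f k)).r (g ^ j) (ι' k x) := fun k =>
    R.F.map_weil e (f k) U (ι k) ⟨he, hfle k, hU, hι k⟩ _ hjU
  -- the filtrations
  have hM := isMonodromyFiltration_monFil (N := (loc R.P R.F.D e).N) (hWD e).nil
  set M := monFil (loc R.P R.F.D e).N
  have h2 : ∀ k, IsMWPure (R.P.p ^ (n * j)) e.wt (en ((loc R.P R.F.D (f k)).r (g ^ j)))
      (loc R.P R.F.D (f k)).N := fun k => by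
    have := mw_two (P := R.P) R.F.isWD (mw_of_pure R.two) (f k) (hf k).1 (g ^ j) (n * j)
      (Nat.mul_pos hn hj) hvj
    rwa [(hf k).2] at this
  choose Mk hMk hMst hMw using h2
  have hst : ∀ a x, x ∈ M a → (loc R.P R.F.D e).r g x ∈ M a := fun a x hx =>
    functorial' hM hM ((loc R.P R.F.D e).r g).toLinearMap (R.P.pow_ne _)
      (fun x => (hWD e).comm g x) a hx
  refine ⟨M, hM, hst, fun a α x hx hx' hα => ?_⟩
  have hpow : ∀ l : ℕ, (loc R.P R.F.D e).r (g ^ l) x - α ^ l • x ∈ M (a - 1) := by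
    intro l
    induction l with
    | zero =>
      rw [pow_zero, pow_zero, (hWD e).one, one_smul, sub_self]
      exact Submodule.zero_mem _
    | succ l ih =>
      have e1 : (loc R.P R.F.D e).r (g ^ (l + 1)) x - α ^ (l + 1) • x =
          (loc R.P R.F.D e).r g ((loc R.P R.F.D e).r (g ^ l) x - α ^ l • x) +
            α ^ l • ((loc R.P R.F.D e).r g x - α • x) := by
        rw [pow_succ' g, (hWD e).mul', map_sub, map_smul, smul_sub, smul_smul, ← _root_.pow_succ]
        abel
      rw [e1]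
      exact Submodule.add_mem _ (hst _ _ ih) (Submodule.smul_mem _ _ hα)
  have hιM : ∀ k s y, y ∈ M s → ι' k y ∈ Mk k s := fun k s y hy =>
    functorial' hM (hMk k) (ι' k) one_ne_zero (fun x => by rw [one_smul, hιN]) s hy
  have hπM : ∀ k s y, y ∈ Mk k s → π' k y ∈ M s := fun k s y hy =>
    functorial' (hMk k) hM (π' k) one_ne_zero (fun x => by rw [one_smul, hπN]) s hy
  obtain ⟨k, hk⟩ : ∃ k, ι' k x ∉ Mk k (a - 1) := by
    by_contra hcon
    push Not at hcon
    refine hx' ?_
    rw [← hsum' x]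
    exact Submodule.sum_mem _ fun k _ => hπM k _ _ (hcon k)
  have h3 : (loc R.P R.F.D (f k)).r (g ^ j) (ι' k x) - α ^ j • ι' k x ∈ Mk k (a - 1) := by
    have := hιM k _ _ (hpow j)
    rwa [map_sub, map_smul, hιr] at this
  have h4 := hMw k a (α ^ j) (ι' k x) (hιM k _ _ hx) hk h3
  rw [_root_.pow_mul] at h4
  exact IsWeilNumber.of_pow hj h4.of_pow_base

/-- mw purity of all tensor constructions. -/
lemma HKPst.mw_all (R : HKPst K Ω) : ∀ e : Expr, e.le R.X.d → Mw R.P (loc R.P R.F.D e) e.wt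
  | .H i, he => by
    rcases Nat.even_or_odd i with hi | hi
    · refine R.mw_even he ?_
      change Even (i : ℤ)
      exact_mod_cast hi
    · have hle : (Expr.hom (Expr.hom (.H i) (.tate 0)) (.H i)).le R.X.d := ⟨⟨he, trivial⟩, he⟩
      have hwt : (Expr.hom (Expr.hom (.H i) (.tate 0)) (.H i)).wt = 2 * (i : ℤ) := by
        change (i : ℤ) - (2 * 0 - i) = 2 * i
        ring
      have h1 := R.mw_even hle (by rw [hwt]; exact even_two_mul _)
      rw [hwt] at h1
      intro g n hn hg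
      refine pure_sqrt (one_lt_pow R.P hn) (α := (WDSpace.tate R.P 0 : WDSpace Ω R.P.G).r g)
        (fun c => ?_) (rel_nat (R.F.isWD i) hg) (R.F.isWD i).nil (h1 g n hn hg)
      change (R.P.p : Ω) ^ (0 * R.P.v g) • c = c
      rw [zero_mul, zpow_zero, one_smul]
  | .tate m, _ => mw_tate m
  | .hom a b, he => mw_hom (isWD_loc R.F.isWD a) (isWD_loc R.F.isWD b) (R.mw_all a he.1)
      (R.mw_all b he.2)

/-- **The `p`-adic monodromy-weight conjecture.** -/
theorem HKPst.pure (R : HKPst K Ω) (e : Expr) (he : e.le R.X.d) :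
    (loc R.P R.F.D e).IsPure R.P e.wt :=
  pure_of_mw (isWD_loc R.F.isWD e) (R.mw_all e he)

end hk

end Pool.Agent.Run7.h261.PW
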