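import Pool.Agent.Run7.h261.MT.Good
import Pool.Agent.N184.HK.W7
import Pool.Agent.Y143.Mon
import Pool.Agent.Y143.WeilNum

/-!
# mw purity and spaces of linear maps
-/

set_option autoImplicit false

namespace Pool.Agent.Run7.h261.PW

open Module Module.End Pool.Agent.Y143 Pool.Agent.N184.HK Pool.Agent.Run7.h261.MT

section

variable {Ω V : Type} [Field Ω] [CharZero Ω] [IsAlgClosed Ω] [AddCommGroup V] [Module Ω V]
  [FiniteDimensional Ω V]

omit [IsAlgClosed Ω] in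
/-- All eigenvalues of the Frobenius are Weil numbers. -/
lemma weil_of_pure {q : ℕ} {w : ℤ} {Φ N : Module.End Ω V} (h : IsMWPure q w Φ N) :
    ∀ e ∈ Φ.charpoly.roots, ∃ w : ℤ, IsWeilNumber q w e := by
  intro e he
  obtain ⟨M, hM, -, hw⟩ := h
  rw [Polynomial.mem_roots (LinearMap.charpoly_monic _).ne_zero] at he
  obtain ⟨x, hx⟩ := ((Module.End.hasEigenvalue_iff_isRoot_charpoly _ _).2 he).exists_hasEigenvector
  obtain ⟨a, ha⟩ := hM.bot
  obtain ⟨b, hb⟩ := hM.top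
  have hxa : x ∉ M a := by
    rw [ha, Submodule.mem_bot]
    exact hx.2
  have hxb : x ∈ M b := by
    rw [hb]; exact Submodule.mem_top
  have hab : a ≤ b := by
    by_contra hcon
    exact hxa (hM.mono (by omega : b ≤ a) hxb)
  obtain ⟨c, -, -, hc, hc'⟩ := P_FRM.step (fun n => x ∈ M n) hxa hab hxb
  refine ⟨c + w, hw c e x hc hc' ?_⟩
  rw [hx.apply_eq_smul, sub_self]
  exact Submodule.zero_mem _

variable {q : ℕ} {W : Wt Ω}

/-- The centred weight operator. -/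
noncomputable def cw (W : Wt Ω) (w : ℤ) (φ : V ≃ₗ[Ω] V) : Module.End Ω V :=
  fop (en φ) (fun e => ((W.w e - (w : ℚ) : ℚ) : Ω))

omit [CharZero Ω] in
lemma cw_eq [CharZero Ω] (w : ℤ) (φ : V ≃ₗ[Ω] V) :
    cw W w φ = fop (en φ) W.k - (w : Ω) • (1 : Module.End Ω V) := by
  have : (fun e => ((W.w e - (w : ℚ) : ℚ) : Ω)) = fun e => W.k e - ((w : ℤ) : Ω) := by
    ext e
    rw [Rat.cast_sub, Rat.cast_intCast]
    rfl
  rw [cw, this, fop_sub, fop_const]

lemma qWeil (q : ℕ) : IsWeilNumber q 2 (q : Ω) := by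
  refine ⟨isAlgebraic_natCast q, fun y hy => ?_⟩
  have h7 : minpoly ℚ (q : Ω) = Polynomial.X - Polynomial.C (q : ℚ) := by
    have := minpoly.eq_X_sub_C Ω (q : ℚ)
    rw [map_natCast] at this
    exact this
  rw [h7] at hy
  simp only [map_sub, Polynomial.aeval_X, Polynomial.aeval_C, sub_eq_zero] at hy
  rw [hy]
  simp

/-- The weight operator and the monodromy operator. -/
lemma cw_N (hq : 1 < q) (hWU : ∀ x, W.U x ↔ ∃ w : ℤ, IsWeilNumber q w x)
    (hWw : ∀ (w : ℤ) (x : Ω), IsWeilNumber q w x → W.w x = (w : ℚ)) {φ : V ≃ₗ[Ω] V}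
    {N : Module.End Ω V} (hr : ∀ e ∈ (en φ).charpoly.roots, ∃ w : ℤ, IsWeilNumber q w e)
    (hN : ∀ x, N (en φ x) = (q : Ω) • en φ (N x)) (w : ℤ) :
    cw W w φ * N - N * cw W w φ = -(2 : Ω) • N := by
  have hq0 : (q : Ω) ≠ 0 := by exact_mod_cast (by omega : q ≠ 0)
  have hU1 : W.U 1 := (hWU 1).2 ⟨0, IsWeilNumber.one _⟩
  have hUq : W.U (q : Ω) := (hWU _).2 ⟨2, qWeil q⟩
  have hwq : W.w (q : Ω) = 2 := by
    have := hWw 2 _ (qWeil q)
    rw [this]; norm_num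
  have hwinv : W.k (q : Ω)⁻¹ = -2 := by
    have h1 := W.w_mul _ _ hUq (W.inv _ hUq)
    rw [mul_inv_cancel₀ hq0, W.w_one hU1, hwq] at h1
    have h2 : W.w (q : Ω)⁻¹ = -2 := by linarith
    rw [Wt.k, h2]; norm_num
  have hN2 : N ∈ (adE φ).maxGenEigenspace (q : Ω)⁻¹ := by
    rw [Module.End.mem_maxGenEigenspace]
    refine ⟨1, ?_⟩
    rw [pow_one, LinearMap.sub_apply, adE_twist _ hq0 hN]
    exact sub_self _
  have h1 := comm_fop W (fun e he => (hWU e).2 (hr e he)) hN2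
  rw [hwinv] at h1
  rw [← h1, cw_eq, sub_mul, mul_sub, smul_mul_assoc, mul_smul_comm, one_mul, mul_one]
  abel

/-- An `sl₂`-triple. -/
def Trip (X D N : Module.End Ω V) : Prop :=
  D * X - X * D = (2 : Ω) • X ∧ D * N - N * D = -(2 : Ω) • N ∧ X * N - N * X = D

/-- From mw purity to an `sl₂`-triple. -/
lemma trip_of_pure (hq : 1 < q) (hWU : ∀ x, W.U x ↔ ∃ w : ℤ, IsWeilNumber q w x)
    (hWw : ∀ (w : ℤ) (x : Ω), IsWeilNumber q w x → W.w x = (w : ℚ)) {φ : V ≃ₗ[Ω] V}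
    {N : Module.End Ω V} {w : ℤ} (h : IsMWPure q w (en φ) N)
    (hN : ∀ x, N (en φ x) = (q : Ω) • en φ (N x)) :
    ∃ X, Trip X (cw W w φ) N := by
  have hr := weil_of_pure h
  have hDN := cw_N hq hWU hWw hr hN w
  have hDtop : (⨆ j : ℤ, (cw W w φ).eigenspace (j : Ω)) = ⊤ := by
    refine (t_fope Ω V _ _).2.2 fun e he => ?_
    obtain ⟨u, hu⟩ := hr e he
    refine ⟨u - w, ?_⟩
    rw [hWw u e hu]
    push_cast
    ring
  have hW2 : ∀ j : ℤ, (cw W w φ).eigenspace (j : Ω) = WS q (en φ) (w + j) := fun j =>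
    Pool.Agent.N184.HK.WS_eq hq hr hWw w j
  have hfrm := t_frm Ω V _ hq w _ N hr hN h
  have hbij : ∀ j : ℕ, Set.BijOn (⇑(N ^ j)) ((cw W w φ).eigenspace (j : Ω) : Set V)
      ((cw W w φ).eigenspace (-(j : Ω)) : Set V) := by
    intro j
    have h1 := hW2 (j : ℤ)
    have h2 := hW2 (-(j : ℤ))
    rw [Int.cast_natCast] at h1
    rw [Int.cast_neg, Int.cast_natCast, ← sub_eq_add_neg] at h2
    rw [h1, h2]
    exact hfrm j
  obtain ⟨ι, _, b, wt, hb⟩ := P_SL2A.eig_basis _ hDtop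
  obtain ⟨X, h1, h2⟩ := P_SL2A.exists_X hb hDN hbij
  exact ⟨X, h1, hDN, h2⟩

/-- From an `sl₂`-triple to mw purity. -/
lemma pure_of_trip (hq : 1 < q)
    (hWw : ∀ (w : ℤ) (x : Ω), IsWeilNumber q w x → W.w x = (w : ℚ)) {φ : V ≃ₗ[Ω] V}
    {N : Module.End Ω V} {w : ℤ} (hr : ∀ e ∈ (en φ).charpoly.roots, ∃ w : ℤ, IsWeilNumber q w e)
    (hN : ∀ x, N (en φ x) = (q : Ω) • en φ (N x)) {X : Module.End Ω V}
    (h : Trip X (cw W w φ) N) : IsMWPure q w (en φ) N := by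
  obtain ⟨h1, h2, h3⟩ := h
  obtain ⟨-, hB⟩ := t_sl2b Ω V _ _ _ h1 h2 h3
  have hWi : ∀ j : ℤ, (cw W w φ).maxGenEigenspace (j : Ω) = WS q (en φ) (w + j) := fun j => by
    rw [cw, (t_fope Ω V _ _).2.1]
    exact Pool.Agent.N184.HK.WS_eq hq hr hWw w j
  refine t_tom Ω V _ hq w _ N hr hN fun j => ?_
  have h4 := hWi (j : ℤ)
  have h5 := hWi (-(j : ℤ))
  rw [Int.cast_natCast] at h4
  rw [Int.cast_neg, Int.cast_natCast, ← sub_eq_add_neg] at h5
  rw [← h4, ← h5]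
  exact hB j

end

section

variable {Ω A B : Type} [Field Ω] [CharZero Ω] [IsAlgClosed Ω] [AddCommGroup A] [Module Ω A]
  [FiniteDimensional Ω A] [AddCommGroup B] [Module Ω B] [FiniteDimensional Ω B]

omit [CharZero Ω] [IsAlgClosed Ω] [FiniteDimensional Ω A] [FiniteDimensional Ω B] in
lemma ppc_lie (R R' : Module.End Ω A) (S S' : Module.End Ω B) :
    ppc (R * R' - R' * R) (S * S' - S' * S) = ppc R S * ppc R' S' - ppc R' S' * ppc R S := by
  refine LinearMap.ext fun f => LinearMap.ext fun x => ?_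
  simp only [ppc_apply, LinearMap.sub_apply, LinearMap.comp_apply, Module.End.mul_apply, map_sub]
  abel

omit [CharZero Ω] [IsAlgClosed Ω] [FiniteDimensional Ω A] [FiniteDimensional Ω B] in
lemma ppc_smul (c : Ω) (R : Module.End Ω A) (S : Module.End Ω B) :
    ppc (c • R) (c • S) = c • ppc R S := by
  refine LinearMap.ext fun f => LinearMap.ext fun x => ?_
  simp only [ppc_apply, LinearMap.sub_apply, LinearMap.comp_apply, LinearMap.smul_apply, map_smul,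
    smul_sub]

lemma cw_arr (W : Wt Ω) {φ : A ≃ₗ[Ω] A} {ψ : B ≃ₗ[Ω] B}
    (hA : ∀ e ∈ (en φ).charpoly.roots, W.U e) (hB : ∀ e ∈ (en ψ).charpoly.roots, W.U e)
    (w w' : ℤ) : cw W (w' - w) (LinearEquiv.arrowCongr φ ψ) = ppc (cw W w φ) (cw W w' ψ) := by
  rw [cw_eq, cw_eq, cw_eq]
  have h := arr_fop (φ := φ) (ψ := ψ) W hA hB
  change fop (arr φ ψ) W.k - _ = _
  rw [h]
  refine LinearMap.ext fun f => LinearMap.ext fun x => ?_
  simp only [ppc_apply, LinearMap.sub_apply, LinearMap.comp_apply, LinearMap.smul_apply,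
    Module.End.one_apply, map_sub, map_smul, Int.cast_sub, sub_smul]
  abel

omit [CharZero Ω] [IsAlgClosed Ω] [FiniteDimensional Ω A] [FiniteDimensional Ω B] in
/-- The relation of the monodromy operator and the Frobenius on spaces of linear maps. -/
lemma arr_rel {q : Ω} (hq : q ≠ 0) {φ : A ≃ₗ[Ω] A} {ψ : B ≃ₗ[Ω] B} {N : Module.End Ω A}
    {M : Module.End Ω B} (hN : ∀ x, N (en φ x) = q • en φ (N x))
    (hM : ∀ x, M (en ψ x) = q • en ψ (M x)) (f : A →ₗ[Ω] B) :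
    ppc N M (arr φ ψ f) = q • arr φ ψ (ppc N M f) := by
  refine LinearMap.ext fun x => ?_
  obtain ⟨y, rfl⟩ := φ.surjective x
  have e1 : ∀ g : A →ₗ[Ω] B, (arr φ ψ g) (φ y) = ψ (g y) := fun g => arr_apply φ ψ g y
  have e2 : N (φ y) = φ (q • N y) := by
    rw [map_smul]; exact hN y
  rw [ppc_apply, LinearMap.sub_apply, LinearMap.comp_apply, LinearMap.comp_apply,
    LinearMap.smul_apply, e1, e1, e2, arr_apply, ppc_apply, LinearMap.sub_apply,
    LinearMap.comp_apply, LinearMap.comp_apply]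
  have e3 : M (ψ (f y)) = q • ψ (M (f y)) := hM (f y)
  rw [e3, map_smul, map_smul, map_sub, smul_sub]

/-- **mw purity of spaces of linear maps.** -/
theorem pure_hom {q : ℕ} (hq : 1 < q) {φ : A ≃ₗ[Ω] A} {ψ : B ≃ₗ[Ω] B} {N : Module.End Ω A}
    {M : Module.End Ω B} {w w' : ℤ} (hA : IsMWPure q w (en φ) N) (hB : IsMWPure q w' (en ψ) M)
    (hN : ∀ x, N (en φ x) = (q : Ω) • en φ (N x)) (hM : ∀ x, M (en ψ x) = (q : Ω) • en ψ (M x)) :
    IsMWPure q (w' - w) (arr φ ψ) (ppc N M) := by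
  obtain ⟨W, hWU, hWw⟩ := t_wtb Ω q hq
  have hq0 : (q : Ω) ≠ 0 := by exact_mod_cast (by omega : q ≠ 0)
  obtain ⟨X, hX1, hX2, hX3⟩ := trip_of_pure hq hWU hWw hA hN
  obtain ⟨Y, hY1, hY2, hY3⟩ := trip_of_pure hq hWU hWw hB hM
  have hUA : ∀ e ∈ (en φ).charpoly.roots, W.U e := fun e he => (hWU e).2 (weil_of_pure hA e he)
  have hUB : ∀ e ∈ (en ψ).charpoly.roots, W.U e := fun e he => (hWU e).2 (weil_of_pure hB e he)
  have hr : ∀ e ∈ (arr φ ψ).charpoly.roots, ∃ w : ℤ, IsWeilNumber q w e := by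
    intro t ht
    rw [Polynomial.mem_roots (LinearMap.charpoly_monic _).ne_zero] at ht
    obtain ⟨f, hf⟩ :=
      ((Module.End.hasEigenvalue_iff_isRoot_charpoly _ _).2 ht).exists_hasEigenvector
    have hf1 : f ∈ (arr φ ψ).maxGenEigenspace t := by
      rw [Module.End.mem_maxGenEigenspace]
      refine ⟨1, ?_⟩
      rw [pow_one, LinearMap.sub_apply, hf.apply_eq_smul]
      exact sub_self _
    obtain ⟨e, he, hte⟩ := arr_root hf.2 hf1
    have h1 : W.U (t * e) := hUB _ hte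
    have h2 : W.U e := hUA _ he
    have h3 : W.U (t * e * e⁻¹) := W.mul _ _ h1 (W.inv _ h2)
    rw [mul_assoc, mul_inv_cancel₀ (W.ne _ h2), mul_one] at h3
    exact (hWU t).1 h3
  have hT : Trip (ppc X Y) (cw W (w' - w) (LinearEquiv.arrowCongr φ ψ)) (ppc N M) := by
    rw [cw_arr W hUA hUB]
    refine ⟨?_, ?_, ?_⟩
    · rw [← ppc_lie, hX1, hY1, ppc_smul]
    · rw [← ppc_lie, hX2, hY2, ppc_smul]
    · rw [← ppc_lie, hX3, hY3]
  exact pure_of_trip hq hWw hr (arr_rel hq0 hN hM) hT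

end

end Pool.Agent.Run7.h261.PW
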