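import Pool.Agent.Run7.h261.MT.Defs
import Pool.Agent.Y143.Defs

/-!
# The potentially semistable cohomology of a hyperkähler variety: definitions
-/

set_option autoImplicit false

namespace Pool.Agent.Run7.h261.PW

open Module NumberField
open Pool.Agent.W401.Cheb Pool.Agent.N184.HK Pool.Agent.Y143 Pool.Agent.Run7.h261.MT

/-- The Weil group `G` of the completion of the number field `K` at a place above `p`, with the map to the
Galois group of `K` and the valuation `v`: if the residue field has `p ^ h` elements then a geometric
Frobenius element has the valuation `h`, and `v` is zero on the inertia group. -/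
structure WeilGroup (K : Type) [Field K] where
  p : ℕ
  prime : p.Prime
  G : Type
  [group : Group G]
  toGal : G →* GK K
  v : G → ℤ
  v_mul : ∀ g h, v (g * h) = v g + v h
  frob : ∃ g, 0 < v g

attribute [instance] WeilGroup.group

/-- A finite-dimensional vector space `V` with operators `r g` for `g ∈ G` and an operator `N`. -/
structure WDSpace (Ω : Type) [Field Ω] (G : Type) where
  V : Type
  [grp : AddCommGroup V]
  [mod : Module Ω V]
  [fin : FiniteDimensional Ω V]
  r : G → (V ≃ₗ[Ω] V)
  N : Module.End Ω V

attribute [instance] WDSpace.grp WDSpace.mod WDSpace.fin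

/-- The action of `g` on `x`. -/
def WDSpace.act {Ω : Type} [Field Ω] {G : Type} (D : WDSpace Ω G) (g : G) (x : D.V) : D.V :=
  D.r g x

/-- The vector `N x`. -/
def WDSpace.mon {Ω : Type} [Field Ω] {G : Type} (D : WDSpace Ω G) (x : D.V) : D.V := D.N x

section

variable {K : Type} [Field K] {Ω : Type} [Field Ω] [CharZero Ω]

/-- `D` is a representation of the Weil group with a nilpotent operator `N` such that
`N g = p ^ (v g) g N`; the inertia group acts through a finite quotient. -/
structure WDSpace.IsWD (P : WeilGroup K) (D : WDSpace Ω P.G) : Prop where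
  mul : ∀ g h x, D.act (g * h) x = D.act g (D.act h x)
  comm : ∀ g x, D.mon (D.act g x) = (P.p : Ω) ^ P.v g • D.act g (D.mon x)
  nil : IsNilpotent D.N
  inertia : ∀ g, P.v g = 0 → ∃ n, 0 < n ∧ ∀ x, D.act (g ^ n) x = x

/-- The filtration `M` is stable under `g`, and for all `a` each eigenvalue of `g` on `M_a / M_(a - 1)` is
an algebraic number all of whose complex conjugates have absolute value `p ^ ((w + a) v(g) / 2)`. -/
def WDSpace.PureAt (P : WeilGroup K) (D : WDSpace Ω P.G) (w : ℤ) (M : ℤ → Submodule Ω D.V)
    (g : P.G) : Prop :=
  (∀ a x, x ∈ M a → D.act g x ∈ M a) ∧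
    ∀ (a : ℤ) (α : Ω) (x : D.V), x ∈ M a → x ∉ M (a - 1) → D.act g x - α • x ∈ M (a - 1) →
      IsWeilNumber P.p ((w + a) * P.v g) α

/-- `D` is pure of weight `w`: for all `g` in the Weil group and all `a`, each eigenvalue of `g` on the
graded piece `M_a / M_(a - 1)` of the monodromy filtration is an algebraic number all of whose complex
conjugates have absolute value `p ^ ((w + a) v(g) / 2)`. -/
def WDSpace.IsPure (P : WeilGroup K) (D : WDSpace Ω P.G) (w : ℤ) : Prop :=
  ∃ M : ℤ → Submodule Ω D.V, IsMonodromyFiltration D.N M ∧ ∀ g, D.PureAt P w M g

lemma WeilGroup.pow_ne (P : WeilGroup K) (n : ℤ) : (P.p : Ω) ^ n ≠ 0 :=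
  zpow_ne_zero n (by exact_mod_cast P.prime.ne_zero)

/-- The space for the representation `ℚ_p(-m)`: `g` acts as `p ^ (m v(g))`, and `N = 0`. -/
noncomputable abbrev WDSpace.tate (P : WeilGroup K) (m : ℤ) : WDSpace Ω P.G where
  V := Ω
  r g := scal ((P.p : Ω) ^ (m * P.v g)) (P.pow_ne _)
  N := 0

/-- The space of linear maps from `A` to `B`: `g` acts as `f ↦ g f g⁻¹` and `N` as
`f ↦ N f - f N`. -/
abbrev WDSpace.hom {G : Type} (A B : WDSpace Ω G) : WDSpace Ω G where
  V := A.V →ₗ[Ω] B.V
  r g := LinearEquiv.arrowCongr (A.r g) (B.r g)
  N := ppc A.N B.N

/-- The tensor constructions with the spaces `D i`. -/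
noncomputable def loc (P : WeilGroup K) (D : ℕ → WDSpace Ω P.G) : Expr → WDSpace Ω P.G
  | .H i => D i
  | .tate m => WDSpace.tate P m
  | .hom a b => (loc P D a).hom (loc P D b)

end

section

variable {K : Type} [Field K] [NumberField K] {Ω : Type} [Field Ω] [CharZero Ω]
  [TopologicalSpace Ω]

/-- Linear maps between tensor constructions. -/
abbrev EvHom {X : HKVariety K Ω} (c : Twist X) (e f : Expr) : Type :=
  (ev c e).V →ₗ[Ω] (ev c f).V

/-- Linear maps between the tensor constructions with the spaces `D i`. -/
abbrev LocHom (P : WeilGroup K) (D : ℕ → WDSpace Ω P.G) (e f : Expr) : Type :=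
  (loc P D e).V →ₗ[Ω] (loc P D f).V

/-- The linear map `ι` from `e` to `f` is compatible with the action of the subgroup `U` of the Galois
group. -/
def GalMap {X : HKVariety K Ω} (c : Twist X) (e f : Expr) (U : Subgroup (GK K))
    (ι : EvHom c e f) : Prop :=
  ∀ σ ∈ U, Commutes ι ((ev c e).φ σ) ((ev c f).φ σ)

/-- `U` is an open subgroup of the Galois group, and the linear map `ι` between the tensor constructions
`e` and `f` is compatible with the action of `U`. -/
structure OpenMap {X : HKVariety K Ω} (c : Twist X) (e f : Expr) (U : Subgroup (GK K))
    (ι : EvHom c e f) : Prop where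
  left : e.le X.d
  right : f.le X.d
  isOpen : IsOpen (U : Set (GK K))
  map : GalMap c e f U ι

section functor

variable {X : HKVariety K Ω} {c : Twist X} {P : WeilGroup K} {D : ℕ → WDSpace Ω P.G}
  (F : ∀ e f : Expr, EvHom c e f → LocHom P D e f)

/-- `F` maps the identity to the identity. -/
def MapId : Prop := ∀ e : Expr, e.le X.d → F e e LinearMap.id = LinearMap.id

/-- `F` is additive. -/
def MapAdd : Prop := ∀ (e f : Expr) (U : Subgroup (GK K)) (ι κ : EvHom c e f),
  OpenMap c e f U ι → OpenMap c e f U κ → F e f (ι + κ) = F e f ι + F e f κ

/-- `F` is compatible with the composition of maps. -/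
def MapComp : Prop := ∀ (e f g : Expr) (U : Subgroup (GK K)) (ι : EvHom c e f) (κ : EvHom c f g),
  OpenMap c e f U ι → OpenMap c f g U κ → F e g (κ ∘ₗ ι) = F f g κ ∘ₗ F e f ι

/-- The maps `F ι` are compatible with the operators `N`. -/
def MapN : Prop := ∀ (e f : Expr) (U : Subgroup (GK K)) (ι : EvHom c e f),
  OpenMap c e f U ι → Commutes (F e f ι) (loc P D e).mon (loc P D f).mon

/-- The maps `F ι` are compatible with the elements of the Weil group which are mapped to `U`. -/
def MapWeil : Prop := ∀ (e f : Expr) (U : Subgroup (GK K)) (ι : EvHom c e f),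
  OpenMap c e f U ι → ∀ g, P.toGal g ∈ U → Commutes (F e f ι) ((loc P D e).act g) ((loc P D f).act g)

end functor

/-- The functor `D_pst` of Fontaine for the place of `K` with the Weil group `P.G`, on the tensor
constructions with the `p`-adic cohomology of `X` (with coefficients extended to `Ω`, an algebraically
closed field which contains `ℚ_p` and `P_0`; `g` in the Weil group acts as `g φ ^ v(g)`). It is a
tensor functor, so its value for the tensor construction `e` is the tensor construction
`loc P D e` with the spaces `D i`, the values for `H^i(X)`. As `D_pst` only depends on the restriction of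
a representation to open subgroups, it gives a linear map `map ι` for all linear maps `ι` which are
compatible with an open subgroup `U` of the Galois group; this map is compatible with `N` and with
the elements of the Weil group which are mapped to `U`. -/
structure PstFunctor {X : HKVariety K Ω} (c : Twist X) (P : WeilGroup K) where
  D : ℕ → WDSpace Ω P.G
  isWD : ∀ i, (D i).IsWD P
  map : ∀ e f : Expr, EvHom c e f → LocHom P D e f
  map_id : MapId map
  map_add : MapAdd map
  map_comp : MapComp map
  map_N : MapN map
  map_weil : MapWeil map

/-- The tensor construction `e` is contained in a finite direct sum of tensor constructions with `H²` of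
the same weight, as a representation of `so(H²)`. -/
def InTwo {X : HKVariety K Ω} (c : Twist X) (e : Expr) : Prop :=
  ∃ (n : ℕ) (f : Fin n → Expr) (ι : ∀ k, (ev c e).V →ₗ[Ω] (ev c (f k)).V),
    (∀ k, (f k).two ∧ (f k).wt = e.wt) ∧ (∀ k, (ev c e).SoMap (ev c (f k)) (ι k)) ∧ JointInj ι

/-- A projective hyperkähler variety `X` over a number field `K`, of any deformation type, with its
`p`-adic cohomology, and a place of `K` above `p`. To the data of `HKVariety` (the `p`-adic cohomology
with the actions of the Galois group and of `so(H²)`, and the crystalline cohomology at the good places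
of degree one) we add the cyclotomic character `c`, the Weil group `P.G` of the place and the functor
`F = D_pst`, and three known facts:

* `rigid`: extensions of trivial representations by trivial representations inside of the twisted
  tensor constructions split over open subgroups (Faltings, Bloch-Kato, see `Rigid`);
* `weyl`: a tensor construction of even weight is contained in a finite direct sum of tensor
  constructions with `H²` and Tate twists, as a representation of `so(H²)`. In fact the action of
  `so(H²)` integrates to an action of the group `SO(H²)` (Verbitsky), and representations of this group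
  are contained in sums of tensor powers of `H²` (Weyl);
* `two`: the `p`-adic monodromy-weight conjecture is known for `H²(X)`: `D_pst(H²(X))` is pure of weight
  `2`. -/
structure HKPst (K : Type) [Field K] [NumberField K] (Ω : Type) [Field Ω] [CharZero Ω]
    [TopologicalSpace Ω] where
  X : HKVariety K Ω
  c : Twist X
  rigid : Rigid c
  weyl : ∀ e : Expr, e.le X.d → Even e.wt → InTwo c e
  P : WeilGroup K
  F : PstFunctor c P
  two : (F.D 2).IsPure P 2

end

end Pool.Agent.Run7.h261.PW
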