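import Pool.Agent.Run7.h261.PW.Defs
import Pool.Agent.Run7.h261.PW.Lin
import Pool.Agent.Run7.h261.MT.MTC
import Pool.Agent.Run7.h615.MT.So

/-!
# Tensor constructions of even weight are direct summands of tensor constructions with `H²`
-/

set_option autoImplicit false
set_option linter.unusedSectionVars false

namespace Pool.Agent.Run7.h261.PW

open Module NumberField
open Pool.Agent.W401.Cheb Pool.Agent.N184.HK Pool.Agent.Y143 Pool.Agent.Run7.h261.MT

section

variable {K : Type} [Field K] [NumberField K] {Ω : Type} [Field Ω] [CharZero Ω] [IsAlgClosed Ω]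
  [TopologicalSpace Ω] {X : HKVariety K Ω} (c : Twist X)

/-- The action of `so(H²)` on a tensor construction is a representation of the Lie algebra. -/
lemma rho_lin : ∀ e : Expr, ∃ R : Module.End Ω (X.E.X.H 2) →ₗ[Ω] Module.End Ω (ev c e).V,
    (∀ T, R T = (ev c e).ρ T) ∧ ∀ A B, Skew X.E.X.q A → Skew X.E.X.q B →
      R (A * B - B * A) = R A * R B - R B * R A
  | .H i => ⟨X.E.X.ρ i, fun _ => rfl, fun A B hA hB => X.E.X.bracket i A B hA hB⟩
  | .tate _ => ⟨0, fun _ => rfl, fun A B _ _ => by simp⟩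
  | .hom a b => by
    obtain ⟨Ra, h1, h2⟩ := rho_lin a
    obtain ⟨Rb, h3, h4⟩ := rho_lin b
    refine ⟨{ toFun := fun T => ppc (Ra T) (Rb T)
              map_add' := fun S T => ?_
              map_smul' := fun r T => ?_ }, fun T => ?_, fun A B hA hB => ?_⟩
    · refine LinearMap.ext fun f => LinearMap.ext fun x => ?_
      change ppc (Ra (S + T)) (Rb (S + T)) f x = ppc (Ra S) (Rb S) f x + ppc (Ra T) (Rb T) f x
      simp only [ppc_apply, LinearMap.sub_apply, LinearMap.comp_apply, map_add,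
        LinearMap.add_apply]
      abel
    · rw [map_smul, map_smul, ppc_smul]
      rfl
    · change ppc (Ra T) (Rb T) = ppc ((ev c a).ρ T) ((ev c b).ρ T)
      rw [h1, h3]
    · change ppc (Ra (A * B - B * A)) (Rb (A * B - B * A)) = _
      rw [h2 A B hA hB, h4 A B hA hB, ppc_lie]
      rfl

variable [IsTopologicalRing Ω] [T2Space Ω]

/-- **Tensor constructions of even weight are direct summands of tensor constructions with `H²`**, as
representations of `so(H²)` and of an open subgroup of the Galois group. -/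
theorem split (hc : Rigid c) {e : Expr} (he : e.le X.d) (hV : InTwo c e) :
    ∃ (n : ℕ) (f : Fin n → Expr) (ι : ∀ k, (ev c e).V →ₗ[Ω] (ev c (f k)).V)
      (π : ∀ k, (ev c (f k)).V →ₗ[Ω] (ev c e).V) (U : Subgroup (GK K)),
      IsOpen (U : Set (GK K)) ∧ (∀ k, (f k).two ∧ (f k).wt = e.wt) ∧
      (∀ k, GalMap c e (f k) U (ι k)) ∧ (∀ k, GalMap c (f k) e U (π k)) ∧
      ∀ x, ∑ k, π k (ι k x) = x := by
  classical
  obtain ⟨n, f, ι, hf, hι, hinj⟩ := hV
  choose R hR1 hR2 using rho_lin (X := X) c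
  -- the action on the direct sum
  let V := (k : Fin n) → (ev c (f k)).V
  let RV : Module.End Ω (X.E.X.H 2) →ₗ[Ω] Module.End Ω V :=
    { toFun := fun T => LinearMap.pi fun k => R (f k) T ∘ₗ LinearMap.proj k
      map_add' := fun S T => by
        refine LinearMap.ext fun x => funext fun k => ?_
        simp
      map_smul' := fun r T => by
        refine LinearMap.ext fun x => funext fun k => ?_
        simp }
  have hRV : ∀ T (x : V) k, RV T x k = R (f k) T (x k) := fun T x k => rfl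
  have hbr : ∀ A B, Skew X.E.X.q A → Skew X.E.X.q B →
      RV (A * B - B * A) = RV A * RV B - RV B * RV A := by
    intro A B hA hB
    refine LinearMap.ext fun x => funext fun k => ?_
    rw [hRV, hR2 _ A B hA hB]
    rfl
  let ιV : (ev c e).V →ₗ[Ω] V := LinearMap.pi ι
  have hιV : ∀ x k, ιV x k = ι k x := fun x k => rfl
  have hιinj : Function.Injective ιV := by
    rw [injective_iff_map_eq_zero]
    intro x hx
    exact hinj x fun k => congrFun hx k
  have hιR : ∀ T, Skew X.E.X.q T → ∀ x, ιV ((ev c e).ρ T x) = RV T (ιV x) := by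
    intro T hT x
    funext k
    rw [hιV, hRV, hιV, hι k T hT x, hR1]
  -- the projection
  obtain ⟨pr, hpr1, hpr2, hpr3⟩ := Run7.h615.MT.weyl X.E.X.symm X.E.X.nondeg X.E.X.dim3 RV hbr
    (LinearMap.range ιV) (by
      rintro T hT _ ⟨x, rfl⟩
      exact ⟨(ev c e).ρ T x, hιR T hT x⟩)
  let ιe : (ev c e).V ≃ₗ[Ω] LinearMap.range ιV := LinearEquiv.ofInjective ιV hιinj
  let πV : V →ₗ[Ω] (ev c e).V := ιe.symm.toLinearMap ∘ₗ pr.codRestrict (LinearMap.range ιV) hpr2
  have hπ : ∀ y, ιV (πV y) = pr y := by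
    intro y
    have h1 : ιe (πV y) = pr.codRestrict (LinearMap.range ιV) hpr2 y := ιe.apply_symm_apply _
    exact congrArg Subtype.val h1
  have hπι : ∀ x, πV (ιV x) = x := by
    intro x
    apply hιinj
    rw [hπ]
    exact hpr3 _ ⟨x, rfl⟩
  have hπR : ∀ T, Skew X.E.X.q T → ∀ y, πV (RV T y) = (ev c e).ρ T (πV y) := by
    intro T hT y
    apply hιinj
    rw [hπ, hιR T hT, hπ]
    exact (congrArg (fun g : Module.End Ω V => g y) (hpr1 T hT).eq).symm
  let π : ∀ k, (ev c (f k)).V →ₗ[Ω] (ev c e).V := fun k =>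
    πV ∘ₗ LinearMap.single Ω (fun k => (ev c (f k)).V) k
  have hπso : ∀ k, (ev c (f k)).SoMap (ev c e) (π k) := by
    intro k T hT y
    change πV (Pi.single k ((ev c (f k)).ρ T y)) = (ev c e).ρ T (πV (Pi.single k y))
    rw [← hπR T hT]
    congr 1
    funext l
    rw [hRV]
    by_cases h : l = k
    · subst h
      rw [Pi.single_eq_same, Pi.single_eq_same, hR1]
    · rw [Pi.single_eq_of_ne h, Pi.single_eq_of_ne h, map_zero]
  have hU1 : ∀ k, ∃ U : Subgroup (GK K), IsOpen (U : Set (GK K)) ∧ GalMap c e (f k) U (ι k) := by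
    intro k
    obtain ⟨U, hU, h⟩ := equi_open c hc he ((hf k).1.le X.two_le) (hf k).2
    exact ⟨U, hU, h (ι k) (hι k)⟩
  have hU2 : ∀ k, ∃ U : Subgroup (GK K), IsOpen (U : Set (GK K)) ∧ GalMap c (f k) e U (π k) := by
    intro k
    obtain ⟨U, hU, h⟩ := equi_open c hc ((hf k).1.le X.two_le) he (hf k).2.symm
    exact ⟨U, hU, h (π k) (hπso k)⟩
  choose U1 hU1 hι1 using hU1
  choose U2 hU2 hπ2 using hU2
  refine ⟨n, f, ι, π, ⨅ k, U1 k ⊓ U2 k, ?_, hf, fun k σ hσ => ?_, fun k σ hσ => ?_, fun x => ?_⟩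
  · rw [Subgroup.coe_iInf]
    exact isOpen_iInter_of_finite fun k => (hU1 k).inter (hU2 k)
  · exact hι1 k σ ((Subgroup.mem_iInf.1 hσ) k).1
  · exact hπ2 k σ ((Subgroup.mem_iInf.1 hσ) k).2
  · have h1 : ∑ k, π k (ι k x) = πV (∑ k, Pi.single k (ι k x)) := by
      rw [map_sum]
      rfl
    have h2 : (∑ k, Pi.single k (ι k x) : V) = ιV x := by
      rw [← Finset.univ_sum_single (ιV x)]
      rfl
    rw [h1, h2, hπι]

end

end Pool.Agent.Run7.h261.PW
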